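import Pool.Agent.H299R3.AsI

open Set Topology Pointwise

universe u

namespace Pool.Agent.Results.MP_6cbae3_an.NonBaireAndResolutions

section defs

variable {E : Type u} [AddCommGroup E] [Module ℝ E] [TopologicalSpace E]

/-- `f : D → ℝ` (given by a function on `E`) is Fréchet differentiable at `x₀`: there is a
continuous linear `φ` with `(f (x₀ + t x) - f x₀) / t → φ x` as `t → 0`, uniformly for `x` in
every bounded set (and `x₀ + t x ∈ D` for small `t`). -/
def FrechetAt (D : Set E) (f : E → ℝ) (x₀ : E) : Prop :=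
  ∃ φ : E →L[ℝ] ℝ, ∀ B : Set E, Bornology.IsVonNBounded ℝ B → ∀ ε > 0, ∃ δ > 0,
    ∀ t : ℝ, 0 < |t| → |t| < δ →
      ∀ x ∈ B, x₀ + t • x ∈ D ∧ |(f (x₀ + t • x) - f x₀) / t - φ x| < ε

variable (E)

/-- Asplund: each continuous convex `f : D → ℝ`, `D` nonempty open convex, is Fréchet
differentiable at each point of some dense `Gδ` subset of `D`. -/
def IsAsplund : Prop :=
  ∀ D : Set E, D.Nonempty → IsOpen D → Convex ℝ D → ∀ f : E → ℝ, ContinuousOn f D →
    ConvexOn ℝ D f → ∃ S : Set E, S ⊆ D ∧ IsGδ S ∧ D ⊆ closure S ∧ ∀ x ∈ S, FrechetAt D f x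

/-- Fréchet differentiability space: each continuous convex `f : D → ℝ`, `D` nonempty open
convex, is Fréchet differentiable at the points of a dense subset of `D`. -/
def IsFDS : Prop :=
  ∀ D : Set E, D.Nonempty → IsOpen D → Convex ℝ D → ∀ f : E → ℝ, ContinuousOn f D →
    ConvexOn ℝ D f → D ⊆ closure {x | x ∈ D ∧ FrechetAt D f x}

/-- Condition (CG): for every neighbourhood `V` of zero there is a sequence of bounded sets `B n`
such that every bounded set is contained in some `B n + V`. -/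
def CG : Prop :=
  ∀ V ∈ 𝓝 (0 : E), ∃ B : ℕ → Set E, (∀ n, Bornology.IsVonNBounded ℝ (B n)) ∧
    ∀ C : Set E, Bornology.IsVonNBounded ℝ C → ∃ n, C ⊆ B n + V

/-- Condition (R): for every neighbourhood `V` of zero there is a family of bounded sets `C α`,
`α : ℕ → ℕ`, increasing in `α`, such that every bounded set is contained in some `C α + V`. -/
def Res : Prop :=
  ∀ V ∈ 𝓝 (0 : E), ∃ C : (ℕ → ℕ) → Set E, (∀ α β : ℕ → ℕ, α ≤ β → C α ⊆ C β) ∧
    (∀ α, Bornology.IsVonNBounded ℝ (C α)) ∧
    ∀ B : Set E, Bornology.IsVonNBounded ℝ B → ∃ α, B ⊆ C α + V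

/-- Quasinormable spaces (Grothendieck): for every neighbourhood `V` of zero there is a
neighbourhood `U` of zero such that for all `ε > 0` some bounded `B` has `U ⊆ B + ε V`. -/
def Quasinormable : Prop :=
  ∀ V ∈ 𝓝 (0 : E), ∃ U ∈ 𝓝 (0 : E), ∀ ε : ℝ, 0 < ε → ∃ B : Set E,
    Bornology.IsVonNBounded ℝ B ∧ U ⊆ B + ε • V

/-- A fundamental sequence of bounded sets. -/
def FundamentalSequence : Prop :=
  ∃ B : ℕ → Set E, (∀ n, Bornology.IsVonNBounded ℝ (B n)) ∧
    ∀ C : Set E, Bornology.IsVonNBounded ℝ C → ∃ n, C ⊆ B n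

end defs

/-- (1) If `E` is a Hausdorff locally convex space which is Asplund and not Baire, then `E × ℝ` is
Asplund. (2) If `E` is Baire and satisfies (R), or is metrizable, or satisfies (CG), then `E` is
Asplund iff it is a Fréchet differentiability space, and iff `E × ℝ` is Asplund. (3) Quasinormable
spaces and spaces with a fundamental sequence of bounded sets satisfy (CG); spaces with (CG) and
metrizable spaces satisfy (R), and so do all products of spaces satisfying (R). -/
theorem result :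
    (∀ (E : Type u) [AddCommGroup E] [Module ℝ E] [TopologicalSpace E]
      [IsTopologicalAddGroup E] [ContinuousSMul ℝ E] [LocallyConvexSpace ℝ E] [T2Space E],
      ¬ BaireSpace E → IsAsplund E → IsAsplund (E × ℝ)) ∧
    (∀ (E : Type u) [AddCommGroup E] [Module ℝ E] [TopologicalSpace E]
      [IsTopologicalAddGroup E] [ContinuousSMul ℝ E] [LocallyConvexSpace ℝ E] [T2Space E],
      ((BaireSpace E ∧ Res E) ∨ TopologicalSpace.MetrizableSpace E ∨ CG E) →
      (IsAsplund E ↔ IsFDS E) ∧ (IsAsplund E ↔ IsAsplund (E × ℝ))) ∧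
    (∀ (E : Type u) [AddCommGroup E] [Module ℝ E] [TopologicalSpace E]
      [IsTopologicalAddGroup E] [ContinuousSMul ℝ E] [LocallyConvexSpace ℝ E],
      (Quasinormable E ∨ FundamentalSequence E → CG E) ∧
      (CG E ∨ TopologicalSpace.MetrizableSpace E → Res E)) ∧
    (∀ (ι : Type u) (F : ι → Type u) [∀ i, AddCommGroup (F i)] [∀ i, Module ℝ (F i)]
      [∀ i, TopologicalSpace (F i)] [∀ i, IsTopologicalAddGroup (F i)]
      [∀ i, ContinuousSMul ℝ (F i)], (∀ i, Res (F i)) → Res (∀ i, F i)) := by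
  refine ⟨?_, ?_, ?_, ?_⟩
  · intro E _ _ _ _ _ _ _ hN hE
    exact H299.As.asplund_prod_of_not_baire hN hE
  · intro E _ _ _ _ _ _ _ h
    change (H647R3.Fac.IsAsplund E ↔ H647R3.Fac.IsFDS E) ∧
      (H647R3.Fac.IsAsplund E ↔ H647R3.Fac.IsAsplund (E × ℝ))
    have key : ∀ (h1 : H647R3.Fac.IsFDS E → H647R3.Fac.IsAsplund E)
        (h2 : H647R3.Fac.IsFDS (E × ℝ) → H647R3.Fac.IsAsplund (E × ℝ)),
        (H647R3.Fac.IsAsplund E ↔ H647R3.Fac.IsFDS E) ∧
        (H647R3.Fac.IsAsplund E ↔ H647R3.Fac.IsAsplund (E × ℝ)) := fun h1 h2 =>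
      ⟨⟨H299.As.fds_of_asplund, h1⟩,
        fun hE => h2 (H299.As.fds_prod (H299.As.fds_of_asplund hE)),
        fun hE => h1 (H299.As.fds_of_prod hE)⟩
    rcases h with ⟨hB, h⟩ | h | h
    · have := H299.As.baire_prod E
      exact key (H299.As.asplund_of_baire h) (H299.As.asplund_of_baire (H299.As.res_prod h))
    · exact key H299.As.asplund_of_metrizable H299.As.asplund_of_metrizable
    · exact key (H299.As.asplund_of_cg h) (H299.As.asplund_of_cg (H299.As.cg_prod h))
  · intro E _ _ _ _ _ _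
    refine ⟨fun h => ?_, fun h => ?_⟩
    · rcases h with h | h
      · exact H299.As.cg_of_qn h
      · exact H299.As.cg_of_fsb h
    · rcases h with h | h
      · exact H299.As.res_of_cg h
      · exact H299.As.res_of_metrizable
  · intro ι F _ _ _ _ _ h
    exact H299.As.res_pi F h

end Pool.Agent.Results.MP_6cbae3_an.NonBaireAndResolutions
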